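import Pool.Agent.helper76.FF2.Spec

set_option autoImplicit false

/-!
# Project FF2 (MP_bbe200_nt), row ff2:LOC
-/

namespace Pool.Agent.FF2

open Polynomial

theorem LOC_eval {K : Type*} [Field K] (B : Finset K) (b : K) (hb : b ∈ B) :
    (pol B).eval b = 0 := by
  unfold pol
  rw [eval_prod]
  exact Finset.prod_eq_zero hb (by simp)

theorem LOC (K : Type*) [Field K] [CharP K 2] (h1 : E2A_stmt K) (h2 : REC_stmt K)
    (h3 : E2B_stmt K) (h4 : PAR_stmt K) (h5 : DSM_stmt K) (h6 : PFD_stmt K) : LOC_stmt K := by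
  intro A E s w₁ w₂ B R₁ R₂ hS δ N₁ N₂ hN₁ hN₂
  obtain ⟨_, _, _, _, hA5, hA6, _, hA8, _⟩ := h1
  obtain ⟨p1, p2, p3, p4, p5⟩ := h6 A E s w₁ w₂ B R₁ R₂ hS
  have htwo : (2 : K) = 0 := CharTwo.two_eq_zero
  -- the common part
  have hexp : ∀ (R : Finset K) (f g : K → K), e2 R (fun x => δ + f x + g x) =
      e2 R f + (((R.card.choose 2 : ℕ) : K) * δ ^ 2 + (R.card : K) * δ * (∑ x ∈ R, f x) +
        δ * (∑ x ∈ R, f x) + e2 R g + ((R.card : K) * δ + ∑ x ∈ R, f x) * (∑ x ∈ R, g x) +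
        (δ * (∑ x ∈ R, g x) + ∑ x ∈ R, f x * g x)) := by
    intro R f g
    have a1 := hA6 R (fun x => δ + f x) g
    have a2 := hA6 R (fun _ => δ) f
    have b1 : ∑ x ∈ R, (δ + f x) = (R.card : K) * δ + ∑ x ∈ R, f x := by
      rw [Finset.sum_add_distrib, Finset.sum_const, nsmul_eq_mul]
    have b2 : ∑ x ∈ R, (δ + f x) * g x = δ * (∑ x ∈ R, g x) + ∑ x ∈ R, f x * g x := by
      rw [Finset.mul_sum, ← Finset.sum_add_distrib]
      exact Finset.sum_congr rfl fun x _ => by ring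
    have b3 : ∑ x ∈ R, δ * f x = δ * ∑ x ∈ R, f x := by rw [Finset.mul_sum]
    have b4 : ∑ _x ∈ R, δ = (R.card : K) * δ := by rw [Finset.sum_const, nsmul_eq_mul]
    rw [a1, a2, b1, b2, b3, b4, hA8]
    ring
  have hD : (E ^ 2 * s).Monic := (hS.hE.pow 2).mul hS.hs
  have hDe : ∀ x : K, E.eval x ≠ 0 → s.eval x ≠ 0 → (E ^ 2 * s).eval x ≠ 0 := by
    intro x hx1 hx2
    rw [eval_mul, eval_pow]
    exact mul_ne_zero (pow_ne_zero 2 hx1) hx2
  have hrec := (h2 R₁ R₂ (E ^ 2 * s) N₂ hD hN₂ hS.hcard hS.hmod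
    (fun x hx => hDe x (hS.hR1 x hx).2.1 (hS.hR1 x hx).2.2)
    (fun x hx => hDe x (hS.hR2 x hx).2.1 (hS.hR2 x hx).2.2)).2
  rw [hexp R₁, hexp R₂, hrec, p3 N₁ hN₁, p4 N₂ hN₂, p5 N₁ N₂ hN₁ hN₂, hS.hcard]
  -- partial fractions
  have hpf : ∀ R : Finset K, (∀ x ∈ R, x ∉ B) →
      e2 R (fun x => N₁.eval x / (pol B).eval x ^ 2) =
      e2 R (fun x => ∑ b ∈ B, (N₁.eval b / (derivative (pol B)).eval b ^ 2 / (x + b) ^ 2 +
        (derivative N₁).eval b / (derivative (pol B)).eval b ^ 2 / (x + b))) := by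
    intro R hR
    exact hA5 R _ _ fun x hx => h4 B N₁ hN₁ x (hR x hx)
  have hds := h5 R₁ R₂ B
    (fun b x => N₁.eval b / (derivative (pol B)).eval b ^ 2 / (x + b) ^ 2 +
        (derivative N₁).eval b / (derivative (pol B)).eval b ^ 2 / (x + b))
    (fun b hb => p1 b hb _ _) (fun b hb c hc hbc => p2 b hb c hc hbc _ _ _ _)
  have hmain : e2 R₁ (fun x => N₁.eval x / (pol B).eval x ^ 2) +
      e2 R₂ (fun x => N₁.eval x / (pol B).eval x ^ 2) =
      ∑ b ∈ B,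
        ((N₁.eval b / (derivative (pol B)).eval b ^ 2) ^ 2 *
            ((hasseDeriv 2 A).eval b * (1 / w₁.eval b ^ 4 + 1 / w₂.eval b ^ 4)) ^ 2 +
          ((derivative N₁).eval b / (derivative (pol B)).eval b ^ 2) ^ 2 *
            ((hasseDeriv 2 A).eval b * (1 / w₁.eval b ^ 4 + 1 / w₂.eval b ^ 4)) +
          (N₁.eval b / (derivative (pol B)).eval b ^ 2) *
            ((derivative N₁).eval b / (derivative (pol B)).eval b ^ 2) *
            ((hasseDeriv 3 A).eval b * (1 / w₁.eval b ^ 4 + 1 / w₂.eval b ^ 4))) := by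
    rw [hpf R₁ (fun x hx => (hS.hR1 x hx).1), hpf R₂ (fun x hx => (hS.hR2 x hx).1), hds]
    refine Finset.sum_congr rfl fun b hb => ?_
    have hPb := LOC_eval B b hb
    have hAb : A.eval b = 0 := by
      obtain ⟨Z, hZ⟩ := hS.h4
      have := congrArg (Polynomial.eval b) hZ
      rw [eval_add, eval_add, eval_mul, eval_pow, eval_pow, eval_pow, hPb] at this
      simpa using this
    have hA'b : (derivative A).eval b = 0 := by
      rw [hS.hA, eval_pow, eval_mul, hPb]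
      ring
    obtain ⟨κ, κ', hκ⟩ := h3 A s b hAb hA'b
    rw [hκ w₁ R₁ hS.h1 (hS.hw1 b hb), hκ w₂ R₂ hS.h2 (hS.hw2 b hb)]
    generalize N₁.eval b / (derivative (pol B)).eval b ^ 2 = α
    generalize (derivative N₁).eval b / (derivative (pol B)).eval b ^ 2 = γ
    generalize (hasseDeriv 2 A).eval b = S
    generalize (hasseDeriv 3 A).eval b = u
    generalize 1 / w₁.eval b ^ 4 = t₁
    generalize 1 / w₂.eval b ^ 4 = t₂
    linear_combination (α ^ 2 * (S * t₁ * κ + S * t₂ * κ + κ ^ 2 - S ^ 2 * t₁ * t₂) +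
      γ ^ 2 * κ + α * γ * κ') * htwo
  rw [← hmain]
  linear_combination (((R₂.card.choose 2 : ℕ) : K) * δ ^ 2 +
    (R₂.card : K) * δ * (∑ x ∈ R₂, N₁.eval x / (pol B).eval x ^ 2) +
        δ * (∑ x ∈ R₂, N₁.eval x / (pol B).eval x ^ 2) +
        e2 R₂ (fun x => N₂.eval x / (E ^ 2 * s).eval x) +
        ((R₂.card : K) * δ + ∑ x ∈ R₂, N₁.eval x / (pol B).eval x ^ 2) *
          (∑ x ∈ R₂, N₂.eval x / (E ^ 2 * s).eval x) +
        (δ * (∑ x ∈ R₂, N₂.eval x / (E ^ 2 * s).eval x) +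
          ∑ x ∈ R₂, (N₁.eval x / (pol B).eval x ^ 2) * (N₂.eval x / (E ^ 2 * s).eval x))) * htwo

end Pool.Agent.FF2
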